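import Mathlib
import Pool.Agent.MP_7ebdba_gt.StBridge

/-! A smooth trisection of the round 4-sphere of type `(4; 0, 2, 2)` that is not standard. -/

namespace Pool.Agent.Results.MP_7ebdba_gt.SmoothNonStandard

open Pool.Agent.MP_7ebdba_gt

theorem result : ∃ X : Fin 3 → Set (Metric.sphere (0 : EuclideanSpace ℝ (Fin 5)) 1),
    St.IsTri X 4 ![0, 2, 2] ∧ ¬ St.Standard X :=
  St.final

end Pool.Agent.Results.MP_7ebdba_gt.SmoothNonStandard
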